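import Pool.Agent.TDV.Stmts

/-! TDV, module DEC: the decoder is primitive recursive. -/

set_option autoImplicit false

namespace Pool.Agent.TDV.H20

open Pool.Agent.TDV

/-- the length needed for the approximation -/
def FF (v r : List Bool) (i : ℕ) : ℕ :=
  (List.range (r.length + 1)).findIdx fun M => Pd (v.take i) (r.take M)

theorem FF_prim (h : PdsStmt) :
    Primrec fun q : (List Bool × List Bool) × ℕ => FF q.1.1 q.1.2 q.2 := by
  refine Primrec.list_findIdx (Primrec.list_range.comp (Primrec.succ.comp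
    (Primrec.list_length.comp (Primrec.snd.comp Primrec.fst)))) ?_
  exact (h.1.comp ((Primrec.list_take.comp (Primrec.snd.comp Primrec.fst)
    (Primrec.fst.comp (Primrec.fst.comp Primrec.fst))).pair
      (Primrec.list_take.comp Primrec.snd (Primrec.snd.comp (Primrec.fst.comp Primrec.fst))))).to₂

theorem ev_prim : Primrec ev :=
  Primrec.nat_mul.comp (Primrec.const 2) (Primrec.nat_div.comp Primrec.succ (Primrec.const 2))

/-- one step of the recursion -/
def stp (a : List Bool × List Bool) (b : ℕ × Option ℕ) : Option ℕ :=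
  b.2.bind fun L => bif a.1.getD b.1 false then
    (if FF a.1 a.2 b.1 ≤ a.2.length then some (ev (max L (FF a.1 a.2 b.1)) + 2) else none)
    else some (L + 2)

theorem stp_prim (h : PdsStmt) : Primrec₂ stp := by
  have hv : Primrec fun b : ((List Bool × List Bool) × ℕ × Option ℕ) × ℕ => b.1.1.1 :=
    Primrec.fst.comp (Primrec.fst.comp Primrec.fst)
  have hr : Primrec fun b : ((List Bool × List Bool) × ℕ × Option ℕ) × ℕ => b.1.1.2 :=
    Primrec.snd.comp (Primrec.fst.comp Primrec.fst)
  have hi : Primrec fun b : ((List Bool × List Bool) × ℕ × Option ℕ) × ℕ => b.1.2.1 :=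
    Primrec.fst.comp (Primrec.snd.comp Primrec.fst)
  have hL : Primrec fun b : ((List Bool × List Bool) × ℕ × Option ℕ) × ℕ => b.2 := Primrec.snd
  have hF : Primrec fun b : ((List Bool × List Bool) × ℕ × Option ℕ) × ℕ =>
      FF b.1.1.1 b.1.1.2 b.1.2.1 := (FF_prim h).comp ((hv.pair hr).pair hi)
  have hlen : Primrec fun b : ((List Bool × List Bool) × ℕ × Option ℕ) × ℕ =>
      b.1.1.2.length := Primrec.list_length.comp hr
  have h1 : Primrec fun b : ((List Bool × List Bool) × ℕ × Option ℕ) × ℕ =>
      bif b.1.1.1.getD b.1.2.1 false then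
        (if FF b.1.1.1 b.1.1.2 b.1.2.1 ≤ b.1.1.2.length then
          some (ev (max b.2 (FF b.1.1.1 b.1.1.2 b.1.2.1)) + 2) else none)
        else some (b.2 + 2) := by
    refine Primrec.cond ((Primrec.list_getD false).comp hv hi) ?_ ?_
    · refine Primrec.ite (Primrec.nat_le.comp hF hlen) ?_ (Primrec.const none)
      exact Primrec.option_some.comp (Primrec.nat_add.comp
        (ev_prim.comp (Primrec.nat_max.comp hL hF)) (Primrec.const 2))
    · exact Primrec.option_some.comp (Primrec.nat_add.comp hL (Primrec.const 2))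
  exact Primrec.option_bind (Primrec.snd.comp Primrec.snd) h1.to₂

theorem dl_eq (v r : List Bool) (i : ℕ) :
    dl v r i = Nat.rec (motive := fun _ => Option ℕ) (some 0) (fun n IH => stp (v, r) (n, IH)) i := by
  induction i with
  | zero => rfl
  | succ i ih =>
    show (dl v r i).bind _ = stp (v, r) (i, _)
    rw [← ih]
    unfold stp
    congr 1
    funext L
    rw [Bool.cond_eq_ite]
    rfl

theorem dl_prim (h : PdsStmt) :
    Primrec fun q : (List Bool × List Bool) × ℕ => dl q.1.1 q.1.2 q.2 := by
  have h1 : Primrec₂ fun (a : List Bool × List Bool) (n : ℕ) =>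
      (Nat.rec (motive := fun _ => Option ℕ) (some 0) (fun n IH => stp a (n, IH)) n : Option ℕ) :=
    Primrec.nat_rec (Primrec.const (some 0)) (stp_prim h)
  refine Primrec.of_eq h1 ?_
  rintro ⟨⟨v, r⟩, i⟩
  exact (dl_eq v r i).symm

theorem dec (_ : VlmStmt) (h : PdsStmt) : DecStmt := by
  have hd : Primrec fun q : (List Bool × List Bool) × ℕ => dl q.1.1 q.1.2 (q.2 + 1) :=
    (dl_prim h).comp (Primrec.fst.pair (Primrec.succ.comp Primrec.snd))
  have hr : Primrec fun b : ((List Bool × List Bool) × ℕ) × ℕ => b.1.1.2 :=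
    Primrec.snd.comp (Primrec.fst.comp Primrec.fst)
  have h2 : Primrec fun b : ((List Bool × List Bool) × ℕ) × ℕ =>
      decide (b.2 ≤ b.1.1.2.length) :=
    (Primrec.nat_le.comp Primrec.snd (Primrec.list_length.comp hr)).decide
  have h3 : Primrec fun b : ((List Bool × List Bool) × ℕ) × ℕ =>
      b.1.1.2.getD (b.2 - 1) false :=
    (Primrec.list_getD false).comp hr (Primrec.pred.comp Primrec.snd)
  have h1 : Primrec₂ fun (q : (List Bool × List Bool) × ℕ) (L : ℕ) =>
      (decide (L ≤ q.1.2.length) && q.1.2.getD (L - 1) false) :=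
    (Primrec.and.comp h2 h3).to₂
  refine Primrec.of_eq (Primrec.option_casesOn hd (Primrec.const false) h1) ?_
  rintro ⟨⟨v, r⟩, i⟩
  show _ = db v r i
  unfold db
  dsimp only
  cases dl v r (i + 1) <;> rfl

end Pool.Agent.TDV.H20
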